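import Mathlib
import Pool.Agent.H181.PdE

/-!
# MP_459901_an, Q1: the answer is no

There is a smooth area-preserving, exponentially mixing diffeomorphism of the flat torus
`T² = ℝ²/ℤ²` (a cat map conjugated by a smooth shear) for which the decay exponent of the pulsed
diffusion does not grow exponentially in `n` at a rate uniform as `ν → 0`.
-/

open MeasureTheory

namespace Pool.Agent.Results.MP_459901_an.ConjugatedCatMap

noncomputable section

/-- The flat torus `T² = ℝ²/ℤ²`. -/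
abbrev Torus : Type := UnitAddTorus (Fin 2)

/-- The Riemannian area of the flat torus (Haar measure of total mass one). -/
def area : Measure Torus := Measure.pi fun _ => AddCircle.haarAddCircle

/-- The covering map `ℝ² → T²`. -/
def proj (x : Fin 2 → ℝ) : Torus := fun i => (x i : UnitAddCircle)

/-- `f : T² → T²` is smooth: it lifts to a `C^∞` map `ℝ² → ℝ²`. -/
def IsSmooth (f : Torus → Torus) : Prop :=
  ∃ F : (Fin 2 → ℝ) → (Fin 2 → ℝ), ContDiff ℝ (⊤ : ℕ∞) F ∧ ∀ x, f (proj x) = proj (F x)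

/-- Smooth volume-preserving diffeomorphisms of `T²`. -/
structure VolDiffeo where
  /-- the map -/
  toFun : Torus → Torus
  /-- its inverse -/
  invFun : Torus → Torus
  left_inv : ∀ x, invFun (toFun x) = x
  right_inv : ∀ x, toFun (invFun x) = x
  smooth : IsSmooth toFun
  smooth_inv : IsSmooth invFun
  area_preserving : MeasurePreserving toFun area area

/-- `f ∈ L²(T²)`. -/
def InL2 (f : Torus → ℂ) : Prop := MemLp f 2 area

/-- The `L²` norm. -/
def norm2 (f : Torus → ℂ) : ℝ := √(∫ x, ‖f x‖ ^ 2 ∂area)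

/-- The `L²` inner product `⟨f, g⟩ = ∫ f ḡ`. -/
def innerL2 (f g : Torus → ℂ) : ℂ := ∫ x, f x * star (g x) ∂area

/-- The Fourier coefficient `∫ f(x) e^{-2πi k·x} dx`. -/
def coef (f : Torus → ℂ) (k : Fin 2 → ℤ) : ℂ := UnitAddTorus.mFourierCoeff f k

/-- `eig k = |2πk|²`, the eigenvalue of `-Δ` on the mode `e^{2πi k·x}`. -/
def eig (k : Fin 2 → ℤ) : ℝ := (2 * Real.pi) ^ 2 * ((k 0 : ℝ) ^ 2 + (k 1 : ℝ) ^ 2)

/-- `f` lies in the homogeneous Sobolev space `Ḣ^s`: mean zero with `(-Δ)^{s/2} f ∈ L²`. -/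
def InSobolev (s : ℝ) (f : Torus → ℂ) : Prop :=
  InL2 f ∧ coef f 0 = 0 ∧ Summable fun k => eig k ^ s * ‖coef f k‖ ^ 2

/-- `‖f‖_s = ‖(-Δ)^{s/2} f‖`. -/
def sobNorm (s : ℝ) (f : Torus → ℂ) : ℝ := √(∑' k, eig k ^ s * ‖coef f k‖ ^ 2)

/-- Exponential mixing: `|⟨f∘φⁿ, g⟩| ≤ c₁ e^{-c₂ n} ‖f‖_α ‖g‖_β` for some `α, β, c₁, c₂ > 0`. -/
def ExpMixing (φ : VolDiffeo) : Prop :=
  ∃ α > (0 : ℝ), ∃ β > (0 : ℝ), ∃ c₁ > (0 : ℝ), ∃ c₂ > (0 : ℝ),
    ∀ (n : ℕ) (f g : Torus → ℂ), InSobolev α f → InSobolev β g →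
      ‖innerL2 (fun x => f (φ.toFun^[n] x)) g‖ ≤
        c₁ * Real.exp (-(c₂ * n)) * sobNorm α f * sobNorm β g

/-- `g = e^{νΔ} f` in `L²(T²)`. -/
def IsHeat (ν : ℝ) (f g : Torus → ℂ) : Prop :=
  InL2 g ∧ ∀ k, coef g k = (Real.exp (-(ν * eig k)) : ℂ) * coef f k

/-- `θ` is the pulsed diffusion of `φ` with diffusivity `ν`: `θ_{n+1} = e^{νΔ}(θ_n ∘ φ)`, with a
real-valued, mean-zero initial datum `θ_0 ∈ L²`. -/
structure IsPulsed (φ : VolDiffeo) (ν : ℝ) (θ : ℕ → Torus → ℂ) : Prop where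
  inL2 : InL2 (θ 0)
  real : ∀ᵐ x ∂area, (θ 0 x).im = 0
  meanZero : coef (θ 0) 0 = 0
  step : ∀ n, IsHeat ν (fun x => θ n (φ.toFun x)) (θ (n + 1))

end

section Bridge

open Pool.Agent.H181 UnitAddTorus

attribute [local instance] instMeasureSpaceUnitAddCircle
  Pool.Agent.H181.PD.instHaarPd Pool.Agent.H181.PD.instProbPd

theorem area_eq : area = (volume : Measure Torus) := rfl

theorem coef_congr {f g : Torus → ℂ} (h : f =ᵐ[volume] g) (k : Fin 2 → ℤ) : coef f k = coef g k := by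
  unfold coef mFourierCoeff
  apply integral_congr_ae
  filter_upwards [h] with x hx
  rw [hx]

theorem norm2_eq (F : PDE.L2) : norm2 F = ‖F‖ := by
  have h1 : (inner ℂ F F : ℂ) = ((∫ x, ‖F x‖ ^ 2 : ℝ) : ℂ) := by
    rw [L2.inner_def, ← integral_complex_ofReal]
    apply integral_congr_ae
    refine Filter.Eventually.of_forall fun x => ?_
    simp only [inner_self_eq_norm_sq_to_K]
    push_cast
    rfl
  have h2 : (‖F‖ ^ 2 : ℝ) = ∫ x, ‖F x‖ ^ 2 := by
    have h3 := inner_self_eq_norm_sq_to_K (𝕜 := ℂ) F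
    apply Complex.ofReal_injective
    rw [← h1, h3]
    push_cast
    rfl
  unfold norm2
  rw [area_eq, ← h2, Real.sqrt_sq (norm_nonneg _)]

theorem inner_eq {f g : Torus → ℂ} {F G : PDE.L2} (hf : F =ᵐ[volume] f) (hg : G =ᵐ[volume] g) :
    innerL2 f g = inner ℂ G F := by
  unfold innerL2
  rw [L2.inner_def, area_eq]
  apply integral_congr_ae
  filter_upwards [hf, hg] with x h1 h2
  rw [h1, h2]
  simp

/-- The diffeomorphism: the cat map `(x, y) ↦ (x + 3y, x + 4y)` conjugated by the shear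
`(x, y) ↦ (x, y + sin(2πx)/(8π))`. -/
noncomputable def phi : VolDiffeo where
  toFun := PDE.diffeo.toFun
  invFun := PDE.diffeo.invFun
  left_inv := PDE.diffeo.left_inv
  right_inv := PDE.diffeo.right_inv
  smooth := PDE.diffeo.smooth
  smooth_inv := PDE.diffeo.smooth_inv
  area_preserving := PDE.diffeo.measurePreserving

theorem phi_mixing : ExpMixing phi := by
  obtain ⟨α, hα, β, hβ, c₁, hc₁, c₂, hc₂, H⟩ := PDE.expMixing
  refine ⟨α, hα, β, hβ, c₁, hc₁, c₂, hc₂, ?_⟩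
  intro n f g hf hg
  have hf1 : MemLp f 2 (volume : Measure Torus) := hf.1
  have hg1 : MemLp g 2 (volume : Measure Torus) := hg.1
  set F : PDE.L2 := hf1.toLp f with hF
  set G : PDE.L2 := hg1.toLp g with hG
  have hFf : F =ᵐ[volume] f := hf1.coeFn_toLp
  have hGg : G =ᵐ[volume] g := hg1.coeFn_toLp
  have cF : ∀ k, mFourierCoeff F k = coef f k := coef_congr hFf
  have cG : ∀ k, mFourierCoeff G k = coef g k := coef_congr hGg
  have h1 := H n F G ⟨by rw [cF]; exact hf.2.1, by simp only [cF]; exact hf.2.2⟩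
    ⟨by rw [cG]; exact hg.2.1, by simp only [cG]; exact hg.2.2⟩
  have h2 : PDE.sobNorm α F = sobNorm α f := by
    unfold PDE.sobNorm sobNorm
    simp only [cF]
    rfl
  have h3 : PDE.sobNorm β G = sobNorm β g := by
    unfold PDE.sobNorm sobNorm
    simp only [cG]
    rfl
  have h4 : ∀ n : ℕ, ((PDE.U PDE.diffeo)^[n] F : PDE.L2) =ᵐ[volume] fun x => f (phi.toFun^[n] x) := by
    intro n
    induction n with
    | zero => exact hFf
    | succ n ih =>
      rw [Function.iterate_succ_apply']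
      have e1 := Lp.coeFn_compMeasurePreserving ((PDE.U PDE.diffeo)^[n] F) PDE.diffeo.measurePreserving
      have e2 := PDE.diffeo.measurePreserving.quasiMeasurePreserving.ae_eq_comp ih
      exact e1.trans e2
  rw [inner_eq (h4 n) hGg, ← h2, ← h3]
  exact h1

theorem result : ∃ φ : VolDiffeo, ExpMixing φ ∧
    ∀ C > (0 : ℝ), ∀ γ > (1 : ℝ), ∀ ν₀ > (0 : ℝ),
      ∃ ν > 0, ν ≤ ν₀ ∧ ∃ n ≥ 1, ∃ θ : ℕ → Torus → ℂ, IsPulsed φ ν θ ∧
        Real.exp (-(ν * γ ^ n) / C) * norm2 (θ 0) < norm2 (θ n) := by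
  refine ⟨phi, phi_mixing, ?_⟩
  intro C hC γ hγ ν₀ hν₀
  obtain ⟨ν, hν, hνν, n, hn, θ₀, h1, h2, h3⟩ := PDE.lpResult C hC γ hγ ν₀ hν₀
  refine ⟨ν, hν, hνν, n, hn, fun n => PDE.pulsed PDE.diffeo ν n θ₀, ⟨?_, h1, h2, fun m => ⟨?_, ?_⟩⟩, ?_⟩
  · exact Lp.memLp _
  · exact Lp.memLp _
  · intro k
    show mFourierCoeff (PDE.pulsed PDE.diffeo ν (m + 1) θ₀) k = _
    rw [PDE.pulsed_succ, ← mFourierBasis_repr, PDE.heat_repr hν.le, mFourierBasis_repr]
    congr 1
    have e1 := Lp.coeFn_compMeasurePreserving (PDE.pulsed PDE.diffeo ν m θ₀) PDE.diffeo.measurePreserving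
    exact coef_congr e1 k
  · simp only
    rw [norm2_eq, norm2_eq]
    exact h3

end Bridge

end Pool.Agent.Results.MP_459901_an.ConjugatedCatMap
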